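import Mathlib

/-!
# Rectifiable p-spaces with countable cellularity are Lindelöf

Let `X` be a rectifiable p-space, `p` and `q` its operations, `K` a compact set containing `e` with a
countable outer base `V n`. Countable cellularity gives countable sets `A n` such that every `x` is
`p (p (a, v), w)` and `a = p (p (x, v'), w')` with `a ∈ A n` and `v, w, v', w' ∈ V n`. Let `Y` be the
closure of the union of the `A n`. A limit argument gives `X = p (p (Y × K) × K)`, and the sets
`p (b, V n)`, `b` in the union of the `A n`, form a countable network of `Y` modulo the compact sets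
`p (y, K)`.
-/

set_option autoImplicit false

open Set Topology Filter

namespace Pool.Agent.Results.MP_46c3d4_gt.LindelofCCC

universe u

/-- A rectifiable space: there are a point `e` and a homeomorphism `φ` of `X × X` which maps
`{x} × X` onto itself and `(x, x)` to `(x, e)`, for every `x`. -/
def Rectifiable (X : Type u) [TopologicalSpace X] : Prop :=
  ∃ (e : X) (φ : X × X ≃ₜ X × X),
    (∀ x : X, φ '' ({x} ×ˢ univ) = {x} ×ˢ univ) ∧ ∀ x : X, φ (x, x) = (x, e)

/-- A p-space: a Tychonoff space `X` with a sequence of families `γ n` of open subsets of the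
Stone-Čech compactification, each covering `X`, such that the intersection of the stars of every
point of `X` lies in `X`. -/
def PSpace (X : Type u) [TopologicalSpace X] : Prop :=
  T35Space X ∧ ∃ γ : ℕ → Set (Set (StoneCech X)),
    (∀ n, ∀ U ∈ γ n, IsOpen U) ∧
    (∀ n, range (stoneCechUnit : X → StoneCech X) ⊆ ⋃₀ γ n) ∧
    ∀ x : X, (⋂ n, ⋃₀ {U | U ∈ γ n ∧ stoneCechUnit x ∈ U}) ⊆
      range (stoneCechUnit : X → StoneCech X)

/-- Countable Souslin number: every family of pairwise disjoint nonempty open sets is countable. -/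
def CountableSouslin (X : Type u) [TopologicalSpace X] : Prop :=
  ∀ 𝒰 : Set (Set X), (∀ U ∈ 𝒰, IsOpen U ∧ U.Nonempty) → 𝒰.PairwiseDisjoint id → 𝒰.Countable

/-- the operations together with a compact set of countable character -/
structure Data (X : Type u) [TopologicalSpace X] where
  p : X × X → X
  q : X × X → X
  e : X
  hp : Continuous p
  hq : Continuous q
  pq : ∀ x y, p (x, q (x, y)) = y
  qe : ∀ x, q (x, x) = e
  K : Set X
  hK : IsCompact K
  eK : e ∈ K
  V : ℕ → Set X
  hV : ∀ n, IsOpen (V n)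
  KV : ∀ n, K ⊆ V n
  anti : Antitone V
  base : ∀ O : Set X, IsOpen O → K ⊆ O → ∃ n, V n ⊆ O

namespace Data

variable {X : Type u} [TopologicalSpace X] (d : Data X)

/-- symmetric open neighbourhoods of the points -/
def E (n : ℕ) (x : X) : Set X := {y | d.q (x, y) ∈ d.V n ∧ d.q (y, x) ∈ d.V n}

theorem isOpen_E (n : ℕ) (x : X) : IsOpen (d.E n x) := by
  have c1 : Continuous fun y : X => d.q (x, y) := d.hq.comp (by fun_prop)
  have c2 : Continuous fun y : X => d.q (y, x) := d.hq.comp (by fun_prop)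
  exact ((d.hV n).preimage c1).inter ((d.hV n).preimage c2)

theorem mem_E (n : ℕ) (x : X) : x ∈ d.E n x := by
  constructor <;> simpa [d.qe] using d.KV n d.eK

/-- a countable set `A` such that every `E n x` meets some `E n a`, `a ∈ A` -/
theorem exists_net (hc : CountableSouslin X) (n : ℕ) :
    ∃ A : Set X, A.Countable ∧ ∀ x, ∃ a ∈ A, (d.E n x ∩ d.E n a).Nonempty := by
  obtain ⟨A, hA⟩ := zorn_subset {A : Set X | A.PairwiseDisjoint (d.E n)} (by
    intro c hc hch
    refine ⟨⋃₀ c, ?_, fun s hs => subset_sUnion_of_mem hs⟩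
    exact (pairwiseDisjoint_sUnion hch.directedOn).2 fun s hs => hc hs)
  have hAd : A.PairwiseDisjoint (d.E n) := hA.prop
  refine ⟨A, ?_, ?_⟩
  · have hinj : InjOn (d.E n) A := by
      intro a ha b hb hab
      by_contra hne
      have h1 : Disjoint (d.E n a) (d.E n b) := hAd ha hb hne
      exact disjoint_left.1 h1 (d.mem_E n a) (hab ▸ d.mem_E n a)
    refine countable_of_injective_of_countable_image hinj (hc _ ?_ ?_)
    · rintro U ⟨a, -, rfl⟩
      exact ⟨d.isOpen_E n a, a, d.mem_E n a⟩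
    · rintro U ⟨a, ha, rfl⟩ W ⟨b, hb, rfl⟩ hne
      exact hAd ha hb fun h => hne (by rw [h])
  · intro x
    by_contra hcon
    push Not at hcon
    have hins : insert x A ∈ {A : Set X | A.PairwiseDisjoint (d.E n)} := by
      refine hAd.insert fun b hb _ => ?_
      exact disjoint_iff_inter_eq_empty.2 (hcon b hb)
    have hxA : x ∈ A := hA.le_of_ge hins (subset_insert x A) (mem_insert x A)
    have := hcon x hxA
    exact (Set.eq_empty_iff_forall_notMem.1 this) x ⟨d.mem_E n x, d.mem_E n x⟩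

/-- a point of the net near `x` in both directions -/
theorem exists_near {n : ℕ} {x a : X} (h : (d.E n x ∩ d.E n a).Nonempty) :
    ∃ v w v' w', v ∈ d.V n ∧ w ∈ d.V n ∧ v' ∈ d.V n ∧ w' ∈ d.V n ∧
      x = d.p (d.p (a, v), w) ∧ a = d.p (d.p (x, v'), w') := by
  obtain ⟨z, ⟨h1, h2⟩, h3, h4⟩ := h
  refine ⟨d.q (a, z), d.q (z, x), d.q (x, z), d.q (z, a), h3, h2, h1, h4, ?_, ?_⟩
  · rw [d.pq, d.pq]
  · rw [d.pq, d.pq]

/-- sequences with `v n ∈ V n` converge to a point of `K` along an ultrafilter -/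
theorem exists_lim (v : ℕ → X) (hv : ∀ n, v n ∈ d.V n) :
    ∃ f ∈ d.K, Tendsto v (hyperfilter ℕ : Filter ℕ) (𝓝 f) := by
  by_contra hcon
  push Not at hcon
  have h1 : ∀ f ∈ d.K, ∃ N, IsOpen N ∧ f ∈ N ∧ v ⁻¹' N ∉ (hyperfilter ℕ) := by
    intro f hf
    have h2 := hcon f hf
    rw [tendsto_def] at h2
    push Not at h2
    obtain ⟨s, hs, hs'⟩ := h2
    obtain ⟨N, hNs, hN, hfN⟩ := mem_nhds_iff.1 hs
    exact ⟨N, hN, hfN, fun h => hs' (mem_of_superset h (preimage_mono hNs))⟩
  choose! N hN hfN hNv using h1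
  obtain ⟨t, ht, hKt⟩ := d.hK.elim_nhds_subcover N (fun f hf => (hN f hf).mem_nhds (hfN f hf))
  obtain ⟨n, hn⟩ := d.base (⋃ f ∈ t, N f) (isOpen_biUnion fun f hf => hN f (ht f hf)) hKt
  have h3 : v ⁻¹' (⋃ f ∈ t, N f) ∈ (hyperfilter ℕ) := by
    have h4 : {m | n ≤ m} ∈ (hyperfilter ℕ : Filter ℕ) :=
      Nat.hyperfilter_le_atTop (mem_atTop n)
    refine mem_of_superset h4 fun m hm => ?_
    exact hn (d.anti hm (hv m))
  rw [preimage_iUnion₂] at h3
  obtain ⟨f, hf, hf'⟩ := (Ultrafilter.finite_biUnion_mem_iff t.finite_toSet).1 h3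
  exact hNv f (ht f hf) hf'

/-- Let `B` be countable. If for every `y` in the closure of `B` the open set `W y` contains
`p (y, K)`, then countably many `W y` cover the closure of `B`. -/
theorem countable_cover {B : Set X} (hB : B.Countable) (W : X → Set X)
    (hW : ∀ y ∈ closure B, IsOpen (W y)) (hKW : ∀ y ∈ closure B, ∀ k ∈ d.K, d.p (y, k) ∈ W y) :
    ∃ T : Set X, T.Countable ∧ T ⊆ closure B ∧ closure B ⊆ ⋃ y ∈ T, W y := by
  -- for each `y` choose a point `b` of `B` and `n` with `y ∈ p (b, V n) ⊆ W y`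
  have key : ∀ y ∈ closure B, ∃ c : X × ℕ, c.1 ∈ B ∧ d.q (c.1, y) ∈ d.V c.2 ∧
      ∀ v ∈ d.V c.2, d.p (c.1, v) ∈ W y := by
    intro y hy
    obtain ⟨u, v, hu, hv, hyu, hKv, huv⟩ := generalized_tube_lemma
      (isCompact_singleton (x := y)) d.hK ((hW y hy).preimage d.hp) (by
        rintro ⟨a, b⟩ ⟨ha, hb⟩
        rw [mem_singleton_iff] at ha
        subst ha
        exact hKW _ hy b hb)
    obtain ⟨n, hn⟩ := d.base v hv hKv
    have c2 : Continuous fun z : X => d.q (z, y) := d.hq.comp (by fun_prop)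
    have hopen : IsOpen (u ∩ (fun z => d.q (z, y)) ⁻¹' d.V n) :=
      hu.inter ((d.hV n).preimage c2)
    have hmem : y ∈ u ∩ (fun z => d.q (z, y)) ⁻¹' d.V n := by
      refine ⟨hyu rfl, ?_⟩
      show d.q (y, y) ∈ d.V n
      rw [d.qe]
      exact d.KV n d.eK
    obtain ⟨b, ⟨hb1, hb2⟩, hbB⟩ := mem_closure_iff.1 hy _ hopen hmem
    exact ⟨(b, n), hbB, hb2, fun v' hv' => huv (mk_mem_prod hb1 (hn hv'))⟩
  choose! c hcB hcq hcW using key
  -- representatives
  have hcount : (c '' closure B).Countable := by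
    refine (hB.prod (countable_univ (α := ℕ))).mono ?_
    rintro _ ⟨y, hy, rfl⟩
    exact ⟨hcB y hy, trivial⟩
  obtain ⟨T, hTB, hTb⟩ := exists_subset_bijOn (closure B) c
  refine ⟨T, ?_, hTB, ?_⟩
  · refine countable_of_injective_of_countable_image hTb.injOn ?_
    rw [hTb.image_eq]
    exact hcount
  · intro y hy
    obtain ⟨t, ht, hty⟩ := hTb.surjOn (mem_image_of_mem c hy)
    refine mem_iUnion₂.2 ⟨t, ht, ?_⟩
    have h1 := hcW t (hTB ht) (d.q ((c y).1, y)) (by rw [hty]; exact hcq y hy)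
    rw [hty, d.pq] at h1
    exact h1

include d in
/-- countable cellularity implies the Lindelöf property -/
theorem lindelof [T2Space X] (hc : CountableSouslin X) : LindelofSpace X := by
  choose A hAc hA using fun n => d.exists_net hc n
  let B : Set X := ⋃ n, A n
  have hBc : B.Countable := countable_iUnion hAc
  -- every point is `p (p (b, f), g)` with `b ∈ closure B`
  have hrep : ∀ x, ∃ b ∈ closure B, ∃ f ∈ d.K, ∃ g ∈ d.K, x = d.p (d.p (b, f), g) := by
    intro x
    choose a ha hne using fun n => hA n x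
    choose v w v' w' hv hw hv' hw' h1 h2 using fun n => d.exists_near (hne n)
    obtain ⟨f1, hf1, ht1⟩ := d.exists_lim v hv
    obtain ⟨f2, hf2, ht2⟩ := d.exists_lim w hw
    obtain ⟨f3, hf3, ht3⟩ := d.exists_lim v' hv'
    obtain ⟨f4, hf4, ht4⟩ := d.exists_lim w' hw'
    have hta : Tendsto a (hyperfilter ℕ : Filter ℕ) (𝓝 (d.p (d.p (x, f3), f4))) := by
      have h3 : Tendsto (fun n => d.p (d.p (x, v' n), w' n)) (hyperfilter ℕ : Filter ℕ)
          (𝓝 (d.p (d.p (x, f3), f4))) :=
        (d.hp.tendsto _).comp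
          (((d.hp.tendsto _).comp (tendsto_const_nhds.prodMk_nhds ht3)).prodMk_nhds ht4)
      exact h3.congr fun n => (h2 n).symm
    refine ⟨_, mem_closure_of_tendsto hta (Eventually.of_forall fun n =>
      mem_iUnion.2 ⟨n, ha n⟩), f1, hf1, f2, hf2, ?_⟩
    have h4 : Tendsto (fun n => d.p (d.p (a n, v n), w n)) (hyperfilter ℕ : Filter ℕ)
        (𝓝 (d.p (d.p (d.p (d.p (x, f3), f4), f1), f2))) :=
      (d.hp.tendsto _).comp
        (((d.hp.tendsto _).comp (hta.prodMk_nhds ht1)).prodMk_nhds ht2)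
    have h5 : Tendsto (fun _ : ℕ => x) (hyperfilter ℕ : Filter ℕ)
        (𝓝 (d.p (d.p (d.p (d.p (x, f3), f4), f1), f2))) := h4.congr fun n => (h1 n).symm
    exact tendsto_nhds_unique tendsto_const_nhds h5
  -- the compact set attached to a point
  let P : X → Set X := fun b => (fun z : X × X => d.p (d.p (b, z.1), z.2)) '' (d.K ×ˢ d.K)
  have cP : Continuous fun z : X × (X × X) => d.p (d.p (z.1, z.2.1), z.2.2) :=
    d.hp.comp ((d.hp.comp (by fun_prop)).prodMk (by fun_prop))
  refine ⟨isLindelof_of_countable_subcover ?_⟩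
  intro ι U hU hcov
  -- the compact set `p (p (p (y, K), K), K)` is covered by finitely many members
  have hfin : ∀ y : X, ∃ t : Finset ι, ∀ k ∈ d.K, P (d.p (y, k)) ⊆ ⋃ i ∈ t, U i := by
    intro y
    have hcomp : IsCompact ((fun z : X × (X × X) => d.p (d.p (z.1, z.2.1), z.2.2)) ''
        (((fun k => d.p (y, k)) '' d.K) ×ˢ (d.K ×ˢ d.K))) := by
      refine IsCompact.image ?_ cP
      exact (d.hK.image (d.hp.comp (by fun_prop))).prod (d.hK.prod d.hK)
    obtain ⟨t, ht⟩ := hcomp.elim_finite_subcover U hU ((subset_univ _).trans hcov)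
    refine ⟨t, fun k hk => Subset.trans ?_ ht⟩
    rintro _ ⟨z, hz, rfl⟩
    exact ⟨(d.p (y, k), z), ⟨mem_image_of_mem _ hk, hz⟩, rfl⟩
  choose t ht using hfin
  let W : X → Set X := fun y => {b | P b ⊆ ⋃ i ∈ t y, U i}
  have hWo : ∀ y, IsOpen (W y) := by
    intro y
    rw [isOpen_iff_mem_nhds]
    intro b hb
    obtain ⟨u, v, hu, hv, hbu, hKv, huv⟩ := generalized_tube_lemma
      (isCompact_singleton (x := b)) (d.hK.prod d.hK)
      ((isOpen_biUnion fun i (_ : i ∈ t y) => hU i).preimage cP) (by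
        rintro ⟨a, z⟩ ⟨ha, hz⟩
        rw [mem_singleton_iff] at ha
        subst ha
        exact hb ⟨z, hz, rfl⟩)
    filter_upwards [hu.mem_nhds (hbu rfl)] with b' hb'
    rintro _ ⟨z, hz, rfl⟩
    exact huv (mk_mem_prod hb' (hKv hz))
  obtain ⟨T, hTc, -, hT⟩ := d.countable_cover hBc W (fun y _ => hWo y) fun y _ k hk => ht y k hk
  refine ⟨⋃ y ∈ T, (t y : Set ι), hTc.biUnion fun y _ => (t y).countable_toSet, ?_⟩
  intro x _
  obtain ⟨b, hb, f, hf, g, hg, rfl⟩ := hrep x
  obtain ⟨y, hy, hyb⟩ := mem_iUnion₂.1 (hT hb)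
  have h6 : d.p (d.p (b, f), g) ∈ ⋃ i ∈ t y, U i := hyb ⟨(f, g), ⟨hf, hg⟩, rfl⟩
  obtain ⟨i, hi, hxi⟩ := mem_iUnion₂.1 h6
  exact mem_iUnion₂.2 ⟨i, mem_iUnion₂.2 ⟨y, hy, hi⟩, hxi⟩

end Data

/-- Every rectifiable p-space whose Souslin number is countable is Lindelöf. -/
theorem result (X : Type u) [TopologicalSpace X] (hr : Rectifiable X) (hp : PSpace X)
    (hc : CountableSouslin X) : LindelofSpace X := by
  obtain ⟨hT, γ, hγo, hγc, hγ⟩ := hp
  obtain ⟨e, φ, hφ, hφ2⟩ := hr
  have hφ1 : ∀ z : X × X, (φ z).1 = z.1 := by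
    intro z
    have h1 : φ z ∈ φ '' ({z.1} ×ˢ univ) := mem_image_of_mem φ ⟨rfl, trivial⟩
    rw [hφ] at h1
    exact h1.1
  let j : X → StoneCech X := stoneCechUnit
  have hj : IsEmbedding j := isEmbedding_stoneCechUnit
  have hG' : ∀ n, ∃ G ∈ γ n, j e ∈ G := fun n => hγc n (mem_range_self e)
  choose G hG hGe using hG'
  have step : ∀ (n : ℕ) (c : {c : Set (StoneCech X) // c ∈ 𝓝 (j e) ∧ IsClosed c}),
      ∃ c' : {c : Set (StoneCech X) // c ∈ 𝓝 (j e) ∧ IsClosed c},
        c'.1 ⊆ interior c.1 ∩ G n := by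
    intro n c
    have h1 : interior c.1 ∩ G n ∈ 𝓝 (j e) :=
      inter_mem (interior_mem_nhds.2 c.2.1) ((hγo n _ (hG n)).mem_nhds (hGe n))
    obtain ⟨t, ht, htc, hts⟩ := exists_mem_nhds_isClosed_subset h1
    exact ⟨⟨t, ht, htc⟩, hts⟩
  choose f hf using step
  let c : ℕ → {c : Set (StoneCech X) // c ∈ 𝓝 (j e) ∧ IsClosed c} := fun n =>
    Nat.rec ⟨Set.univ, univ_mem, isClosed_univ⟩ (fun n c => f n c) n
  have hcs : ∀ n, (c (n + 1)).1 ⊆ interior (c n).1 ∩ G n := fun n => hf n (c n)
  have hanti : Antitone fun n => (c n).1 :=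
    antitone_nat_of_succ_le fun n => ((hcs n).trans inter_subset_left).trans interior_subset
  let K' : Set (StoneCech X) := ⋂ n, (c n).1
  have hK'c : IsCompact K' := (isClosed_iInter fun n => (c n).2.2).isCompact
  have hK'r : K' ⊆ Set.range j := by
    refine Subset.trans ?_ (hγ e)
    intro z hz
    refine mem_iInter.2 fun n => ?_
    exact mem_sUnion.2 ⟨G n, ⟨hG n, hGe n⟩, (hcs n (mem_iInter.1 hz (n + 1))).2⟩
  have hKi : ∀ n, K' ⊆ interior (c n).1 := fun n z hz =>
    (hcs n (mem_iInter.1 hz (n + 1))).1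
  let d : Data X :=
    { p := fun z => (φ.symm z).2
      q := fun z => (φ z).2
      e := e
      hp := continuous_snd.comp φ.symm.continuous
      hq := continuous_snd.comp φ.continuous
      pq := by
        intro x y
        have h1 : φ (x, y) = (x, (φ (x, y)).2) := Prod.ext (hφ1 _) rfl
        rw [← h1, φ.symm_apply_apply]
      qe := by
        intro x
        rw [hφ2]
      K := j ⁻¹' K'
      hK := hj.isInducing.isCompact_preimage' hK'c hK'r
      eK := mem_iInter.2 fun n => mem_of_mem_nhds (c n).2.1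
      V := fun n => j ⁻¹' interior (c n).1
      hV := fun n => isOpen_interior.preimage hj.continuous
      KV := fun n => preimage_mono (hKi n)
      anti := fun m n hmn => preimage_mono (interior_mono (hanti hmn))
      base := by
        intro O hO hKO
        obtain ⟨O', hO', rfl⟩ := hj.isInducing.isOpen_iff.1 hO
        have hKO' : K' ⊆ O' := by
          intro z hz
          obtain ⟨x, rfl⟩ := hK'r hz
          exact hKO hz
        obtain ⟨n, hn⟩ := exists_subset_nhds_of_isCompact' (V := fun n => (c n).1)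
          (directed_of_isDirected_le fun m n h => hanti h)
          (fun n => (c n).2.2.isCompact) (fun n => (c n).2.2)
          (U := O') (fun x hx => hO'.mem_nhds (hKO' hx))
        exact ⟨n, preimage_mono (interior_subset.trans hn)⟩ }
  exact d.lindelof hc

end Pool.Agent.Results.MP_46c3d4_gt.LindelofCCC
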